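import Pool.Agent.H12.HS.Targets
import Pool.Agent.H12.HS.Basic

/-!
# EXIST: presentations of cofinite ideals exist
-/

namespace Pool.Agent.H24.HZ.EXIST

open Pool.Agent.H12.HS Matrix

universe u
variable {Ω : Type u} [Field Ω]

/-- the map whose kernel is the module of syzygies -/
noncomputable def phi {N : ℕ} (f : Fin N → AA Ω) : (Fin N → AA Ω) →ₗ[P2 Ω] AA Ω where
  toFun h := ∑ i, f i * h i
  map_add' h h' := by simp [mul_add, Finset.sum_add_distrib]
  map_smul' p h := by simp [Finset.smul_sum]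

/-- syzygies -/
noncomputable abbrev KK {N : ℕ} (f : Fin N → AA Ω) : Submodule (P2 Ω) (Fin N → AA Ω) :=
  LinearMap.ker (phi f)

theorem mem_KK {N : ℕ} (f : Fin N → AA Ω) (h : Fin N → AA Ω) :
    h ∈ KK f ↔ ∑ i, f i * h i = 0 := Iff.rfl

theorem smul_AA (p : P2 Ω) (a : AA Ω) : p • a = algebraMap (P2 Ω) (AA Ω) p * a := by
  rw [Algebra.smul_def]

theorem smul_AA_ne {p : P2 Ω} (hp : p ≠ 0) {a : AA Ω} (h : p • a = 0) : a = 0 := by
  have h1 : p * a.re = 0 := congrArg QuadraticAlgebra.re h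
  have h2 : p * a.im = 0 := congrArg QuadraticAlgebra.im h
  apply QuadraticAlgebra.ext
  · exact (mul_eq_zero.1 h1).resolve_left hp
  · exact (mul_eq_zero.1 h2).resolve_left hp

/-- multiplication by an element of `AA` on the module of syzygies -/
noncomputable def mulK {N : ℕ} (f : Fin N → AA Ω) (a : AA Ω) : KK f →ₗ[P2 Ω] KK f where
  toFun h := ⟨fun i => a * (h : Fin N → AA Ω) i, by
    rw [mem_KK]
    have h1 := (mem_KK f _).1 h.2
    have h2 : ∑ i, f i * (a * (h : Fin N → AA Ω) i) = a * ∑ i, f i * (h : Fin N → AA Ω) i := by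
      rw [Finset.mul_sum]
      refine Finset.sum_congr rfl fun i _ => ?_
      ring
    rw [h2, h1, mul_zero]⟩
  map_add' h h' := by
    apply Subtype.ext
    funext i
    simp [mul_add]
  map_smul' p h := by
    apply Subtype.ext
    funext i
    simp

/-- the rank of the module of syzygies -/
theorem finrank_KK {m : ℕ} (f : Fin (m + 1) → AA Ω) (hI : Cof (Ideal.span (Set.range f))) :
    Module.finrank (P2 Ω) (KK f) = 2 * m := by
  have h1 := Submodule.finrank_quotient_add_finrank (LinearMap.ker (phi f))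
  rw [(LinearMap.quotKerEquivRange (phi f)).finrank_eq] at h1
  have h2 : Module.finrank (P2 Ω) (Fin (m + 1) → AA Ω) = (m + 1) * 2 := by
    rw [Module.finrank_pi_fintype]
    simp [QuadraticAlgebra.finrank_eq_two]
  have h3 : Module.finrank (P2 Ω) (LinearMap.range (phi f)) = 2 := by
    apply le_antisymm
    · have := Submodule.finrank_le (LinearMap.range (phi f))
      rwa [QuadraticAlgebra.finrank_eq_two] at this
    · obtain ⟨N, hx, -⟩ := hI
      have hmem : ∀ a : AA Ω, px Ω ^ N • a ∈ LinearMap.range (phi f) := by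
        intro a
        obtain ⟨c, hc⟩ := (Ideal.mem_span_range_iff_exists_fun).1 hx
        refine ⟨fun i => c i * a, ?_⟩
        change ∑ i, f i * (c i * a) = _
        rw [smul_AA, map_pow, ← ax_eq, ← hc, Finset.sum_mul]
        refine Finset.sum_congr rfl fun i _ => ?_
        ring
      let g : AA Ω →ₗ[P2 Ω] LinearMap.range (phi f) :=
        { toFun := fun a => ⟨px Ω ^ N • a, hmem a⟩
          map_add' := fun a b => Subtype.ext (smul_add _ _ _)
          map_smul' := fun p a => Subtype.ext (smul_comm _ _ _) }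
      have hg : Function.Injective g := by
        rw [injective_iff_map_eq_zero]
        intro a ha
        exact smul_AA_ne (pow_ne_zero N px_ne_zero) (congrArg Subtype.val ha)
      have := LinearMap.finrank_le_finrank_of_injective hg
      rwa [QuadraticAlgebra.finrank_eq_two] at this
  rw [h2, h3] at h1
  have : Module.finrank (P2 Ω) (KK f) = Module.finrank (P2 Ω) (LinearMap.ker (phi f)) := rfl
  omega

theorem exists_basis (hfreek : T_FREEK.{u}) {m : ℕ} (f : Fin (m + 1) → AA Ω)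
    (hI : Cof (Ideal.span (Set.range f))) :
    Nonempty (Module.Basis (Fin (2 * m)) (P2 Ω) (KK f)) := by
  let e := (Module.finBasis (P2 Ω) (Fin (m + 1) → AA Ω)).equivFun
  obtain ⟨r, ⟨b⟩⟩ := hfreek (PowerSeries Ω) _ ((KK f).map e.toLinearMap) (by
    intro v hv
    obtain ⟨h, hh, hh'⟩ := hv
    refine ⟨e.symm v, ?_, by simp⟩
    have h1 : h = (PowerSeries.X : P2 Ω) • e.symm v := by
      have : e h = (PowerSeries.X : P2 Ω) • v := hh'
      rw [← map_smul, ← this, LinearEquiv.symm_apply_apply]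
    have h2 : phi f h = 0 := hh
    rw [h1, map_smul] at h2
    exact smul_AA_ne py_ne_zero h2)
  let e' : (KK f) ≃ₗ[P2 Ω] ((KK f).map e.toLinearMap) :=
    Submodule.equivMapOfInjective e.toLinearMap e.injective (KK f)
  let b' := b.map e'.symm
  have h1 := Module.finrank_eq_card_basis b'
  rw [finrank_KK f hI, Fintype.card_fin] at h1
  exact ⟨b'.reindex (finCongr h1.symm)⟩

section Main
variable {m : ℕ} (f : Fin (m + 1) → AA Ω) (w : Module.Basis (Fin (2 * m)) (P2 Ω) (KK f))

/-- rows -/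
noncomputable def lam (i : Fin (m + 1)) (j : Fin (2 * m)) : P2 Ω :=
  ((w j : KK f) : Fin (m + 1) → AA Ω) i |>.im

/-- the matrix of `z` -/
noncomputable def TT : Matrix (Fin (2 * m)) (Fin (2 * m)) (P2 Ω) :=
  LinearMap.toMatrix w w (mulK f (az Ω))

theorem az_mul_im (a : AA Ω) : (az Ω * a).im = a.re := by
  change (0 : P2 Ω) * a.im + 1 * a.re + 0 * 1 * a.im = a.re
  ring

theorem az_mul_re (a : AA Ω) : (az Ω * a).re = g4 Ω * a.im := by
  change (0 : P2 Ω) * a.re + g4 Ω * 1 * a.im = g4 Ω * a.im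
  ring

theorem TT_sq : TT f w * TT f w = g4 Ω • (1 : Matrix (Fin (2 * m)) (Fin (2 * m)) (P2 Ω)) := by
  rw [TT, ← LinearMap.toMatrix_comp w w w]
  have : mulK f (az Ω) ∘ₗ mulK f (az Ω) = g4 Ω • LinearMap.id := by
    apply LinearMap.ext
    intro h
    apply Subtype.ext
    funext i
    change az Ω * (az Ω * (h : Fin (m + 1) → AA Ω) i) = g4 Ω • (h : Fin (m + 1) → AA Ω) i
    apply QuadraticAlgebra.ext
    · rw [az_mul_re, az_mul_im]; rfl
    · rw [az_mul_im, az_mul_re]; rfl
  rw [this, map_smul, LinearMap.toMatrix_id]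

theorem mulK_symm (v : Fin (2 * m) → P2 Ω) :
    mulK f (az Ω) (w.equivFun.symm v) = w.equivFun.symm (TT f w *ᵥ v) := by
  apply w.equivFun.injective
  rw [LinearEquiv.apply_symm_apply]
  have h := LinearMap.toMatrix_mulVec_repr w w (mulK f (az Ω)) (w.equivFun.symm v)
  have h1 : ⇑(w.repr (w.equivFun.symm v)) = v :=
    (w.equivFun_apply _).symm.trans (w.equivFun.apply_symm_apply v)
  rw [h1] at h
  rw [TT, h]
  rfl

theorem im_symm (v : Fin (2 * m) → P2 Ω) (i : Fin (m + 1)) :
    (((w.equivFun.symm v : KK f) : Fin (m + 1) → AA Ω) i).im = lam f w i ⬝ᵥ v := by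
  rw [Module.Basis.equivFun_symm_apply]
  have h1 : ((∑ j, v j • w j : KK f) : Fin (m + 1) → AA Ω) i =
      ∑ j, v j • ((w j : KK f) : Fin (m + 1) → AA Ω) i := by
    rw [Submodule.coe_sum, Finset.sum_apply]
    rfl
  rw [h1]
  have h2 : (∑ j, v j • ((w j : KK f) : Fin (m + 1) → AA Ω) i).im =
      ∑ j, (v j • ((w j : KK f) : Fin (m + 1) → AA Ω) i).im :=
    map_sum (QuadraticAlgebra.imₗ (R := P2 Ω) (g4 Ω) 0) _ _
  rw [h2]
  unfold lam dotProduct
  refine Finset.sum_congr rfl fun j _ => ?_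
  rw [QuadraticAlgebra.im_smul, smul_eq_mul, mul_comm]

theorem symm_eq_hat (v : Fin (2 * m) → P2 Ω) (i : Fin (m + 1)) :
    ((w.equivFun.symm v : KK f) : Fin (m + 1) → AA Ω) i =
      hat (g4 Ω) (TT f w) (lam f w i) v := by
  apply QuadraticAlgebra.ext
  · change _ = lam f w i ⬝ᵥ (TT f w *ᵥ v)
    rw [← im_symm, ← mulK_symm]
    exact (az_mul_im _).symm
  · exact im_symm f w v i

theorem eq_of_dot {n : Type} [Fintype n] [DecidableEq n] {a b : n → P2 Ω}
    (h : ∀ v : n → P2 Ω, a ⬝ᵥ v = b ⬝ᵥ v) : a = b := by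
  funext j
  have := h (Pi.single j 1)
  simpa using this

/-- the functional on syzygies attached to a row vector -/
noncomputable def MM (ρ : Fin (2 * m) → P2 Ω) : KK f →ₗ[P2 Ω] AA Ω where
  toFun k := hat (g4 Ω) (TT f w) ρ (w.equivFun k)
  map_add' k k' := by
    apply QuadraticAlgebra.ext
    · simp [hat, Matrix.mulVec_add, dotProduct_add]
    · simp [hat, dotProduct_add]
  map_smul' p k := by
    apply QuadraticAlgebra.ext
    · simp [hat, Matrix.mulVec_smul, dotProduct_smul]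
    · simp [hat, dotProduct_smul]

theorem MM_az (ρ : Fin (2 * m) → P2 Ω) (k : KK f) :
    MM f w ρ (mulK f (az Ω) k) = az Ω * MM f w ρ k := by
  obtain ⟨v, rfl⟩ := w.equivFun.symm.surjective k
  rw [mulK_symm]
  change hat (g4 Ω) (TT f w) ρ (w.equivFun (w.equivFun.symm (TT f w *ᵥ v))) =
    az Ω * hat (g4 Ω) (TT f w) ρ (w.equivFun (w.equivFun.symm v))
  rw [LinearEquiv.apply_symm_apply, LinearEquiv.apply_symm_apply]
  apply QuadraticAlgebra.ext
  · rw [az_mul_re]
    change ρ ⬝ᵥ (TT f w *ᵥ (TT f w *ᵥ v)) = g4 Ω * (ρ ⬝ᵥ v)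
    rw [Matrix.mulVec_mulVec, TT_sq, Matrix.smul_mulVec, Matrix.one_mulVec, dotProduct_smul,
      smul_eq_mul]
  · rw [az_mul_im]
    rfl

theorem mulK_eq (a : AA Ω) (k : KK f) :
    mulK f a k = a.re • k + a.im • mulK f (az Ω) k := by
  apply Subtype.ext
  funext i
  change a * (k : Fin (m + 1) → AA Ω) i = a.re • (k : Fin (m + 1) → AA Ω) i +
    a.im • (az Ω * (k : Fin (m + 1) → AA Ω) i)
  rw [smul_AA, smul_AA]
  conv_lhs => rw [AA_eq a]
  ring

theorem MM_mulK (ρ : Fin (2 * m) → P2 Ω) (a : AA Ω) (k : KK f) :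
    MM f w ρ (mulK f a k) = a * MM f w ρ k := by
  rw [mulK_eq, map_add, map_smul, map_smul, MM_az, smul_AA, smul_AA]
  conv_rhs => rw [AA_eq a]
  ring

/-- the key solvability statement -/
theorem solve (p : P2 Ω) (hp : algebraMap (P2 Ω) (AA Ω) p ∈ Ideal.span (Set.range f))
    (ρ : Fin (2 * m) → P2 Ω) : ∃ r : Fin (m + 1) → AA Ω, act (TT f w) (lam f w) r = p • ρ := by
  obtain ⟨c, hc⟩ := (Ideal.mem_span_range_iff_exists_fun).1 hp
  have hk : ∀ i : Fin (m + 1), (fun j => (if i = j then algebraMap (P2 Ω) (AA Ω) p else 0) -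
      f i * c j) ∈ KK f := by
    intro i
    rw [mem_KK]
    simp only [mul_sub, Finset.sum_sub_distrib, mul_ite, mul_zero, Finset.sum_ite_eq,
      Finset.mem_univ, if_true]
    have h1 : ∑ j, f j * (f i * c j) = f i * ∑ j, c j * f j := by
      rw [Finset.mul_sum]
      refine Finset.sum_congr rfl fun j _ => ?_
      ring
    rw [h1, hc, sub_self]
  let kk : Fin (m + 1) → KK f := fun i => ⟨_, hk i⟩
  refine ⟨fun i => MM f w ρ (kk i), ?_⟩
  apply eq_of_dot
  intro v
  have h2 : mulK f (algebraMap (P2 Ω) (AA Ω) p) (w.equivFun.symm v) =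
      ∑ i, mulK f (((w.equivFun.symm v : KK f) : Fin (m + 1) → AA Ω) i) (kk i) := by
    apply Subtype.ext
    rw [Submodule.coe_sum]
    funext j
    rw [Finset.sum_apply]
    change algebraMap (P2 Ω) (AA Ω) p * ((w.equivFun.symm v : KK f) : Fin (m + 1) → AA Ω) j =
      ∑ i, ((w.equivFun.symm v : KK f) : Fin (m + 1) → AA Ω) i *
        ((if i = j then algebraMap (P2 Ω) (AA Ω) p else 0) - f i * c j)
    simp only [mul_sub, Finset.sum_sub_distrib, mul_ite, mul_zero, Finset.sum_ite_eq',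
      Finset.mem_univ, if_true]
    have h3 : ∑ i, ((w.equivFun.symm v : KK f) : Fin (m + 1) → AA Ω) i * (f i * c j) =
        (∑ i, f i * ((w.equivFun.symm v : KK f) : Fin (m + 1) → AA Ω) i) * c j := by
      rw [Finset.sum_mul]
      refine Finset.sum_congr rfl fun i _ => ?_
      ring
    rw [h3, (mem_KK f _).1 (w.equivFun.symm v).2, zero_mul, sub_zero, mul_comm]
  have h4 := congrArg (MM f w ρ) h2
  rw [map_sum, MM_mulK] at h4
  simp only [MM_mulK, symm_eq_hat] at h4
  have h5 := sum_mul_hat (TT f w) (TT_sq f w) (lam f w) (fun i => MM f w ρ (kk i)) v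
  have h6 := congrArg QuadraticAlgebra.im h4
  have h7 := congrArg QuadraticAlgebra.im h5
  have h8 : ∑ i, MM f w ρ (kk i) * hat (g4 Ω) (TT f w) (lam f w i) v =
      ∑ i, hat (g4 Ω) (TT f w) (lam f w i) v * MM f w ρ (kk i) :=
    Finset.sum_congr rfl fun i _ => mul_comm _ _
  rw [h8] at h7
  have h9 : (algebraMap (P2 Ω) (AA Ω) p * MM f w ρ (w.equivFun.symm v)).im = (p • ρ) ⬝ᵥ v := by
    rw [← smul_AA, QuadraticAlgebra.im_smul]
    change p • (ρ ⬝ᵥ (w.equivFun (w.equivFun.symm v))) = _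
    rw [LinearEquiv.apply_symm_apply, smul_dotProduct]
  rw [← h9, h6]
  exact h7.symm

theorem pres (hI : Cof (Ideal.span (Set.range f))) : Pres (TT f w) (lam f w) f where
  sq := TT_sq f w
  card := by simp
  rel := by
    apply eq_of_dot
    intro v
    have h5 := sum_mul_hat (TT f w) (TT_sq f w) (lam f w) f v
    have h7 := congrArg QuadraticAlgebra.im h5
    rw [zero_dotProduct]
    refine h7.symm.trans ?_
    have h8 : ∑ i, f i * hat (g4 Ω) (TT f w) (lam f w i) v = 0 := by
      have := (mem_KK f _).1 (w.equivFun.symm v).2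
      rw [← this]
      refine Finset.sum_congr rfl fun i _ => ?_
      rw [symm_eq_hat]
    rw [h8]
    rfl
  cofI := hI
  cofM := by
    obtain ⟨N, hx, hy⟩ := hI
    refine ⟨N, fun ρ => ⟨solve f w (px Ω ^ N) ?_ ρ, solve f w (py Ω ^ N) ?_ ρ⟩⟩
    · rw [map_pow, ← ax_eq]; exact hx
    · rw [map_pow, ← ay_eq]; exact hy

end Main

theorem exist (hfreek : T_FREEK.{u}) : T_EXIST.{u} := by
  intro Ω _ I hI
  obtain ⟨n, f0, hf0⟩ := Submodule.fg_iff_exists_fin_generating_family.1
    (IsNoetherian.noetherian I)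
  let f : Fin (n + 1) → AA Ω := Fin.cons 0 f0
  have hf : Ideal.span (Set.range f) = I := by
    change Ideal.span (Set.range (Fin.cons (0 : AA Ω) f0 : Fin (n + 1) → AA Ω)) = I
    rw [Fin.range_cons, Ideal.span_insert_zero]
    exact hf0
  have hI' : Cof (Ideal.span (Set.range f)) := by rw [hf]; exact hI
  obtain ⟨w⟩ := exists_basis hfreek f hI'
  exact ⟨n, TT f w, lam f w, f, pres f w hI', hf⟩

end Pool.Agent.H24.HZ.EXIST
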