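import Pool.Agent.H12.HS.Targets
import Pool.Agent.H12.HS.Basic

/-!
# FREEK: saturated submodules of free modules over `R[[y]]`, `R` a PID, are free
-/

namespace Pool.Agent.H24.HZ.FREEK

open Pool.Agent.H12.HS

universe u

theorem zero_of_iter {S : Type*} [Semiring S] (E : ℕ → PowerSeries S)
    (h : ∀ k, E k = PowerSeries.X * E (k + 1)) : ∀ k, E k = 0 := by
  have key : ∀ n k, PowerSeries.coeff n (E k) = 0 := by
    intro n
    induction n with
    | zero => intro k; rw [h k]; simp
    | succ n ih => intro k; rw [h k, PowerSeries.coeff_succ_X_mul]; exact ih _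
  intro k
  ext n
  simpa using key n k

/-- splitting a power series into constant term and tail -/
theorem mk_eq {S : Type*} [Semiring S] (c : ℕ → S) : PowerSeries.mk c =
    PowerSeries.C (c 0) + PowerSeries.X * PowerSeries.mk (fun k => c (k + 1)) := by
  ext n
  cases n with
  | zero => simp
  | succ n => simp [PowerSeries.coeff_succ_X_mul]

theorem freek : T_FREEK.{u} := by
  intro R _ _ _ n K hK
  classical
  -- the image of `K` modulo `X`
  let Kb : Submodule R (Fin n → R) :=
    { carrier := {u | ∃ v ∈ K, ∀ i, PowerSeries.constantCoeff (v i) = u i}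
      add_mem' := by
        rintro a b ⟨v, hv, hv'⟩ ⟨w, hw, hw'⟩
        exact ⟨v + w, K.add_mem hv hw, fun i => by simp [hv', hw']⟩
      zero_mem' := ⟨0, K.zero_mem, fun i => by simp⟩
      smul_mem' := by
        rintro c a ⟨v, hv, hv'⟩
        exact ⟨PowerSeries.C c • v, K.smul_mem _ hv, fun i => by simp [hv']⟩ }
  obtain ⟨m, ⟨w⟩⟩ := Submodule.nonempty_basis_of_pid (Pi.basisFun R (Fin n)) Kb
  have hw : ∀ j : Fin m, ∃ v ∈ K, ∀ i, PowerSeries.constantCoeff (v i) = (w j : Fin n → R) i :=
    fun j => (w j).2
  choose W hWK hW using hw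
  -- the key step
  have step : ∀ v : K, ∃ (c : Fin m → R) (v' : K),
      (v : Fin n → PowerSeries R) = ∑ j, PowerSeries.C (c j) • W j +
        (PowerSeries.X : PowerSeries R) • (v' : Fin n → PowerSeries R) := by
    rintro ⟨v, hv⟩
    have hvb : (fun i => PowerSeries.constantCoeff (v i)) ∈ Kb := ⟨v, hv, fun i => rfl⟩
    let c : Fin m → R := fun j => w.repr ⟨_, hvb⟩ j
    have hc : ∀ i, ∑ j, c j * (w j : Fin n → R) i = PowerSeries.constantCoeff (v i) := by
      intro i
      have h1 := w.sum_repr ⟨_, hvb⟩
      have h2 : ((∑ j, w.repr ⟨_, hvb⟩ j • w j : Kb) : Fin n → R) i =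
          PowerSeries.constantCoeff (v i) := by rw [h1]
      simpa only [Submodule.coe_sum, Submodule.coe_smul, Finset.sum_apply, Pi.smul_apply,
        smul_eq_mul] using h2
    have hd : ∀ i, ∃ q : PowerSeries R,
        v i - ∑ j, PowerSeries.C (c j) * W j i = PowerSeries.X * q := by
      intro i
      have : (PowerSeries.X : PowerSeries R) ∣ v i - ∑ j, PowerSeries.C (c j) * W j i := by
        rw [PowerSeries.X_dvd_iff, map_sub, map_sum, ← hc i]
        simp [hW]
      exact this
    choose v' hv' using hd
    have hv'' : v - ∑ j, PowerSeries.C (c j) • W j = (PowerSeries.X : PowerSeries R) • v' := by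
      funext i
      have := hv' i
      simp only [Pi.sub_apply, Finset.sum_apply, Pi.smul_apply, smul_eq_mul]
      exact this
    refine ⟨c, ⟨v', hK v' ?_⟩, ?_⟩
    · rw [← hv'']
      exact K.sub_mem hv (K.sum_mem fun j _ => K.smul_mem _ (hWK j))
    · change v = _ + (PowerSeries.X : PowerSeries R) • v'
      rw [← hv'']
      abel
  choose c nx hnx using step
  -- spanning
  have span : ∀ v : K, ∃ p : Fin m → PowerSeries R,
      (v : Fin n → PowerSeries R) = ∑ j, p j • W j := by
    intro v
    let sq : ℕ → K := fun k => Nat.rec v (fun _ z => nx z) k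
    have hsq : ∀ k, sq (k + 1) = nx (sq k) := fun k => rfl
    let p : ℕ → Fin m → PowerSeries R := fun k j => PowerSeries.mk (fun l => c (sq (k + l)) j)
    have hp : ∀ k j, p k j = PowerSeries.C (c (sq k) j) + PowerSeries.X * p (k + 1) j := by
      intro k j
      change PowerSeries.mk _ = _
      rw [mk_eq]
      have : (fun l => c (sq (k + (l + 1))) j) = fun l => c (sq (k + 1 + l)) j := by
        funext l
        rw [show k + (l + 1) = k + 1 + l by omega]
      rw [this]
      rfl
    refine ⟨p 0, ?_⟩
    funext i
    let E : ℕ → PowerSeries R := fun k => (sq k).1 i - ∑ j, p k j * W j i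
    have hE : ∀ k, E k = PowerSeries.X * E (k + 1) := by
      intro k
      have h1 := congrFun (hnx (sq k)) i
      simp only [Pi.add_apply, Finset.sum_apply, Pi.smul_apply, smul_eq_mul] at h1
      change (sq k).1 i - ∑ j, p k j * W j i =
        PowerSeries.X * ((sq (k + 1)).1 i - ∑ j, p (k + 1) j * W j i)
      rw [h1, ← hsq]
      have h2 : ∑ j, p k j * W j i = ∑ j, PowerSeries.C (c (sq k) j) * W j i +
          PowerSeries.X * ∑ j, p (k + 1) j * W j i := by
        rw [Finset.mul_sum, ← Finset.sum_add_distrib]
        refine Finset.sum_congr rfl fun j _ => ?_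
        rw [hp k j]; ring
      rw [h2]; ring
    have := zero_of_iter E hE 0
    have h3 : (v : Fin n → PowerSeries R) i - ∑ j, p 0 j * W j i = 0 := this
    rw [Finset.sum_apply]
    simp only [Pi.smul_apply, smul_eq_mul]
    exact sub_eq_zero.1 h3
  -- independence
  have ind : ∀ (l : ℕ) (p : Fin m → PowerSeries R), ∑ j, p j • W j = 0 →
      ∀ j, PowerSeries.coeff l (p j) = 0 := by
    have base : ∀ p : Fin m → PowerSeries R, ∑ j, p j • W j = 0 →
        ∀ j, PowerSeries.constantCoeff (p j) = 0 := by
      intro p hp
      have h1 : ∑ j, PowerSeries.constantCoeff (p j) • w j = 0 := by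
        apply Subtype.ext
        funext i
        have h2 := congrArg PowerSeries.constantCoeff (congrFun hp i)
        simp only [Finset.sum_apply, Pi.smul_apply, smul_eq_mul, Pi.zero_apply, map_sum, map_mul,
          map_zero, hW] at h2
        simpa using h2
      have h3 := Fintype.linearIndependent_iff.1 w.linearIndependent _ h1
      exact h3
    intro l
    induction l with
    | zero =>
      intro p hp j
      rw [PowerSeries.coeff_zero_eq_constantCoeff]
      exact base p hp j
    | succ l ih =>
      intro p hp j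
      have h1 : ∀ j, ∃ q, p j = PowerSeries.X * q := fun j =>
        PowerSeries.X_dvd_iff.2 (base p hp j)
      choose q hq using h1
      have h2 : ∑ j, q j • W j = 0 := by
        funext i
        have h3 := congrFun hp i
        simp only [Finset.sum_apply, Pi.smul_apply, smul_eq_mul, Pi.zero_apply] at h3 ⊢
        have h4 : PowerSeries.X * ∑ j, q j * W j i = 0 := by
          rw [Finset.mul_sum, ← h3]
          refine Finset.sum_congr rfl fun j _ => ?_
          rw [hq j]; ring
        rcases mul_eq_zero.1 h4 with h5 | h5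
        · exact absurd h5 PowerSeries.X_ne_zero
        · exact h5
      rw [hq j, PowerSeries.coeff_succ_X_mul]
      exact ih q h2 j
  refine ⟨m, ⟨Module.Basis.mk (v := fun j => (⟨W j, hWK j⟩ : K)) ?_ ?_⟩⟩
  · rw [Fintype.linearIndependent_iff]
    intro p hp j
    ext l
    rw [map_zero]
    refine ind l p ?_ j
    have := congrArg (fun z : K => (z : Fin n → PowerSeries R)) hp
    simpa using this
  · rintro v -
    obtain ⟨p, hp⟩ := span v
    have : v = ∑ j, p j • (⟨W j, hWK j⟩ : K) := by
      apply Subtype.ext
      rw [hp]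
      simp
    rw [this]
    exact Submodule.sum_mem _ fun j _ => Submodule.smul_mem _ _ (Submodule.subset_span ⟨j, rfl⟩)

end Pool.Agent.H24.HZ.FREEK
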