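import Pool.Agent.H12.HS.Targets
import Pool.Agent.H12.HS.Basic
import Pool.Agent.H24.HZ.FREEK

/-!
# FLAT: lifting of relations gives a free family
-/

namespace Pool.Agent.H24.HZ.FLAT

open Pool.Agent.H12.HS Pool.Agent.H24.HZ.FREEK

universe u

theorem X_cancel {S : Type*} [Semiring S] {p q : PowerSeries S}
    (h : PowerSeries.X * p = PowerSeries.X * q) : p = q := by
  ext n
  have := congrArg (PowerSeries.coeff (n + 1)) h
  simpa [PowerSeries.coeff_succ_X_mul] using this

theorem flat : T_FLAT.{u} := by
  intro Ω A _ _ _ N _ f f' hlift d b β hβ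
  classical
  let F : N → PowerSeries A := fun i => PowerSeries.C (f i) + PowerSeries.X * PowerSeries.C (f' i)
  change (∀ a : PowerSeries A, ∃ c : Fin d → PowerSeries Ω,
    a - ∑ j, PowerSeries.map (algebraMap Ω A) (c j) * PowerSeries.C (β j) ∈
      Ideal.span (Set.range F)) ∧
    (∀ c : Fin d → PowerSeries Ω,
    ∑ j, PowerSeries.map (algebraMap Ω A) (c j) * PowerSeries.C (β j) ∈
      Ideal.span (Set.range F) → c = 0)
  have hF0 : ∀ i, PowerSeries.constantCoeff (F i) = f i := by
    intro i; simp [F]
  have hmk : ∀ (c : Ω) (a : A), Ideal.Quotient.mk (Ideal.span (Set.range f))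
      (algebraMap Ω A c * a) = c • Ideal.Quotient.mk (Ideal.span (Set.range f)) a := by
    intro c a
    rw [map_mul, Algebra.smul_def]
    rfl
  constructor
  · -- spanning
    have step : ∀ a : PowerSeries A, ∃ (c : Fin d → Ω) (h : N → A) (a' : PowerSeries A),
        a = ∑ j, PowerSeries.C (algebraMap Ω A (c j)) * PowerSeries.C (β j) +
          ∑ i, PowerSeries.C (h i) * F i + PowerSeries.X * a' := by
      intro a
      let a0 := PowerSeries.constantCoeff a
      let c : Fin d → Ω := fun j => b.repr (Ideal.Quotient.mk _ a0) j
      have h1 : a0 - ∑ j, algebraMap Ω A (c j) * β j ∈ Ideal.span (Set.range f) := by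
        rw [← Ideal.Quotient.eq_zero_iff_mem, map_sub, map_sum, sub_eq_zero]
        simp only [hmk, hβ]
        exact (b.sum_repr _).symm
      obtain ⟨h, hh⟩ := (Ideal.mem_span_range_iff_exists_fun).1 h1
      have h2 : (PowerSeries.X : PowerSeries A) ∣ a -
          (∑ j, PowerSeries.C (algebraMap Ω A (c j)) * PowerSeries.C (β j) +
          ∑ i, PowerSeries.C (h i) * F i) := by
        rw [PowerSeries.X_dvd_iff, map_sub, map_add, map_sum, map_sum]
        simp only [map_mul, PowerSeries.constantCoeff_C, hF0]
        rw [hh]
        simp [a0]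
      obtain ⟨a', ha'⟩ := h2
      refine ⟨c, h, a', ?_⟩
      rw [← ha']
      ring
    choose c h nx hnx using step
    intro a
    let sq : ℕ → PowerSeries A := fun k => Nat.rec a (fun _ z => nx z) k
    have hsq : ∀ k, sq (k + 1) = nx (sq k) := fun k => rfl
    let p : ℕ → Fin d → PowerSeries Ω := fun k j => PowerSeries.mk (fun l => c (sq (k + l)) j)
    let q : ℕ → N → PowerSeries A := fun k i => PowerSeries.mk (fun l => h (sq (k + l)) i)
    have hp : ∀ k j, p k j = PowerSeries.C (c (sq k) j) + PowerSeries.X * p (k + 1) j := by
      intro k j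
      change PowerSeries.mk _ = _
      rw [mk_eq]
      have : (fun l => c (sq (k + (l + 1))) j) = fun l => c (sq (k + 1 + l)) j := by
        funext l
        rw [show k + (l + 1) = k + 1 + l by omega]
      rw [this]
      rfl
    have hq : ∀ k i, q k i = PowerSeries.C (h (sq k) i) + PowerSeries.X * q (k + 1) i := by
      intro k i
      change PowerSeries.mk _ = _
      rw [mk_eq]
      have : (fun l => h (sq (k + (l + 1))) i) = fun l => h (sq (k + 1 + l)) i := by
        funext l
        rw [show k + (l + 1) = k + 1 + l by omega]
      rw [this]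
      rfl
    let E : ℕ → PowerSeries A := fun k => sq k -
      ∑ j, PowerSeries.map (algebraMap Ω A) (p k j) * PowerSeries.C (β j) - ∑ i, q k i * F i
    have hE : ∀ k, E k = PowerSeries.X * E (k + 1) := by
      intro k
      have h1 := hnx (sq k)
      change sq k -
        ∑ j, PowerSeries.map (algebraMap Ω A) (p k j) * PowerSeries.C (β j) - ∑ i, q k i * F i =
        PowerSeries.X * (sq (k + 1) -
        ∑ j, PowerSeries.map (algebraMap Ω A) (p (k + 1) j) * PowerSeries.C (β j) -
        ∑ i, q (k + 1) i * F i)
      have h2 : ∑ j, PowerSeries.map (algebraMap Ω A) (p k j) * PowerSeries.C (β j) =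
          ∑ j, PowerSeries.C (algebraMap Ω A (c (sq k) j)) * PowerSeries.C (β j) +
          PowerSeries.X * ∑ j, PowerSeries.map (algebraMap Ω A) (p (k + 1) j) *
            PowerSeries.C (β j) := by
        rw [Finset.mul_sum, ← Finset.sum_add_distrib]
        refine Finset.sum_congr rfl fun j _ => ?_
        rw [hp k j, map_add, map_mul, PowerSeries.map_C, PowerSeries.map_X]; ring
      have h3 : ∑ i, q k i * F i = ∑ i, PowerSeries.C (h (sq k) i) * F i +
          PowerSeries.X * ∑ i, q (k + 1) i * F i := by
        rw [Finset.mul_sum, ← Finset.sum_add_distrib]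
        refine Finset.sum_congr rfl fun i _ => ?_
        rw [hq k i]; ring
      rw [h2, h3, hsq]
      linear_combination h1
    have h0 := zero_of_iter E hE 0
    refine ⟨p 0, ?_⟩
    have h4 : a - ∑ j, PowerSeries.map (algebraMap Ω A) (p 0 j) * PowerSeries.C (β j) =
        ∑ i, q 0 i * F i := by
      have h5 : a - ∑ j, PowerSeries.map (algebraMap Ω A) (p 0 j) * PowerSeries.C (β j) -
        ∑ i, q 0 i * F i = 0 := h0
      exact sub_eq_zero.1 h5
    rw [h4]
    exact Ideal.sum_mem _ fun i _ => Ideal.mul_mem_left _ _ (Ideal.subset_span ⟨i, rfl⟩)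
  · -- torsion-freeness
    have tf : ∀ y : PowerSeries A, PowerSeries.X * y ∈ Ideal.span (Set.range F) →
        y ∈ Ideal.span (Set.range F) := by
      intro y hy
      obtain ⟨H, hH⟩ := (Ideal.mem_span_range_iff_exists_fun).1 hy
      have h1 : ∑ i, PowerSeries.constantCoeff (H i) * f i = 0 := by
        have := congrArg PowerSeries.constantCoeff hH
        simpa [map_sum, hF0] using this
      obtain ⟨G, hG, hG'⟩ := hlift _ h1
      have h2 : ∀ i, ∃ r, H i - G i = PowerSeries.X * r := by
        intro i
        have : (PowerSeries.X : PowerSeries A) ∣ H i - G i := by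
          rw [PowerSeries.X_dvd_iff, map_sub, hG i, sub_self]
        exact this
      choose r hr using h2
      have h3 : PowerSeries.X * ∑ i, r i * F i = PowerSeries.X * y := by
        rw [← hH, Finset.mul_sum]
        have h4 : ∑ i, G i * F i = 0 := hG'
        have h5 : ∑ i, H i * F i = ∑ i, (H i - G i) * F i + ∑ i, G i * F i := by
          rw [← Finset.sum_add_distrib]
          refine Finset.sum_congr rfl fun i _ => ?_
          ring
        rw [h5, h4, add_zero]
        refine Finset.sum_congr rfl fun i _ => ?_
        rw [hr i]; ring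
      rw [← X_cancel h3]
      exact Ideal.sum_mem _ fun i _ => Ideal.mul_mem_left _ _ (Ideal.subset_span ⟨i, rfl⟩)
    have base : ∀ c : Fin d → PowerSeries Ω,
        ∑ j, PowerSeries.map (algebraMap Ω A) (c j) * PowerSeries.C (β j) ∈
          Ideal.span (Set.range F) → ∀ j, PowerSeries.constantCoeff (c j) = 0 := by
      intro c hc
      obtain ⟨H, hH⟩ := (Ideal.mem_span_range_iff_exists_fun).1 hc
      have h1 : ∑ i, PowerSeries.constantCoeff (H i) * f i =
          ∑ j, algebraMap Ω A (PowerSeries.constantCoeff (c j)) * β j := by
        have := congrArg PowerSeries.constantCoeff hH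
        have hcm : ∀ p : PowerSeries Ω, PowerSeries.constantCoeff
            (PowerSeries.map (algebraMap Ω A) p) =
            algebraMap Ω A (PowerSeries.constantCoeff p) := by
          intro p
          rw [← PowerSeries.coeff_zero_eq_constantCoeff_apply, PowerSeries.coeff_map,
            PowerSeries.coeff_zero_eq_constantCoeff_apply]
        rw [map_sum, map_sum] at this
        simpa only [map_mul, hF0, PowerSeries.constantCoeff_C, hcm] using this
      have h2 : ∑ j, algebraMap Ω A (PowerSeries.constantCoeff (c j)) * β j ∈
          Ideal.span (Set.range f) := by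
        rw [← h1]
        exact Ideal.sum_mem _ fun i _ => Ideal.mul_mem_left _ _ (Ideal.subset_span ⟨i, rfl⟩)
      rw [← Ideal.Quotient.eq_zero_iff_mem, map_sum] at h2
      simp only [hmk, hβ] at h2
      exact Fintype.linearIndependent_iff.1 b.linearIndependent _ h2
    have ind : ∀ (l : ℕ) (c : Fin d → PowerSeries Ω),
        ∑ j, PowerSeries.map (algebraMap Ω A) (c j) * PowerSeries.C (β j) ∈
          Ideal.span (Set.range F) → ∀ j, PowerSeries.coeff l (c j) = 0 := by
      intro l
      induction l with
      | zero =>
        intro c hc j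
        rw [PowerSeries.coeff_zero_eq_constantCoeff]
        exact base c hc j
      | succ l ih =>
        intro c hc j
        have h1 : ∀ j, ∃ q, c j = PowerSeries.X * q := fun j =>
          PowerSeries.X_dvd_iff.2 (base c hc j)
        choose q hq using h1
        have h2 : ∑ j, PowerSeries.map (algebraMap Ω A) (q j) * PowerSeries.C (β j) ∈
            Ideal.span (Set.range F) := by
          apply tf
          have h3 : PowerSeries.X * ∑ j, PowerSeries.map (algebraMap Ω A) (q j) *
              PowerSeries.C (β j) =
              ∑ j, PowerSeries.map (algebraMap Ω A) (c j) * PowerSeries.C (β j) := by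
            rw [Finset.mul_sum]
            refine Finset.sum_congr rfl fun j _ => ?_
            rw [hq j, map_mul, PowerSeries.map_X]; ring
          rw [h3]
          exact hc
        rw [hq j, PowerSeries.coeff_succ_X_mul]
        exact ih q h2 j
    intro c hc
    funext j
    ext l
    rw [Pi.zero_apply, map_zero]
    exact ind l c hc j

end Pool.Agent.H24.HZ.FLAT
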